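import Pool.Agent.J4H63.DB.Transfer

/-!
# Q1 is equivalent to its restriction to nearly regular, nearly half dense bipartite graphs

Definitions (in `Pool/Agent/J4H63/DB/Defs.lean`, `Pool/Agent/J4H63/DB/Gadget.lean` and, for
`HasFPRASOn`, `Approx`, `Pool/Agent/H49R2/PC/Defs.lean`):

* `BGr`, `IsBip`: bipartite graphs `(L, R, E)` with given parts; `numIS G` is the number `i(G)` of
  independent sets, `degL`, `degR` are the degrees;
* `HalfRegular k G`: `|L| = |R| = m` and `|2 d - m| ^ k ≤ m` for the degree `d` of every vertex
  (with truncated subtraction, both signs are written out);
* `HasFPRASOn`: randomised approximation within `1 ± 1 / N`, with probability at least `3 / 4`, in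
  time polynomial in the length of the input and `N`.

The result says that an FPRAS for `i` on all bipartite graphs exists if and only if one exists on
the bipartite graphs with `|L| = |R| = m` in which all degrees are within `m ^ (1 / k) / 2` of
`m / 2`; for any fixed `k`.  (For degrees at least `m / 2 - O (log m)` there is an FPTAS, see
`DenseRegular.lean` in this folder.)

Idea.  Fill up both parts of `G` by isolated vertices to parts `L₀`, `R₀` of size `M + h`, where
`h = n + 2` and `M = h ^ k`; add a set `N₁` of `M` vertices to the left part, joined to all of `R₀`,
and a set `N₂` of `M` vertices to the right part, joined to all of `L₀`.  The degrees are between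
`M` and `M + h`, the size of the parts is `2 M + h`.  The independent sets which use no new vertex
are counted by `2 ^ (2 (M + h) - n) * i(G)`, the number of the others is explicit and at most a
constant times the number of the first.
-/

set_option autoImplicit false

namespace Pool.Agent.Results.MP_a7c826_lc.HalfRegularEquivalence

open Pool.Agent.NPC Pool.Agent.H49R2.PC Pool.Agent.J4H63.DB

theorem result : ∀ k : ℕ, 1 ≤ k →
    (HasFPRASOn IsBip numIS ↔
      HasFPRASOn (fun G : BGr => IsBip G ∧ HalfRegular k G) numIS) := by
  intro k _
  constructor
  · rintro ⟨F, A, p, hA, hAF, h⟩
    exact ⟨F, A, p, hA, hAF, fun G hG N hN => h G hG.1 N hN⟩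
  · exact transfer k

end Pool.Agent.Results.MP_a7c826_lc.HalfRegularEquivalence
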